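import Pool.Agent.Helper79.FY.Defs

/-!
# FZ: the monodromy group and its centraliser: definitions for the statement
-/

namespace Pool.Agent.Helper79.FZ

open Matrix Pool.Agent.Helper79.BB Pool.Agent.Helper79.HH Pool.Agent.Helper79.HG Pool.Agent.Helper79.FY

variable {κ : Type} [Field κ] [Algebra κ ℂ] {m r ℓ : ℕ} [Fact ℓ.Prime] {U : Set (Fin m → ℂ)}
  {w : (Fin m → ℂ) → ℂ}

/-- `γ` is in the monodromy group: analytic continuation of `(w, P, y)` along a closed path in the complement of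
`S = 0` gives `(w, P γ, y γ)`. -/
def IsMono (S : MvPolynomial (Fin m) κ) (P : (Fin m → ℂ) → Matrix (Fin r) (Fin r) ℂ)
    (Y : ∀ k : ℕ, CoverData κ (Fin r → ZMod (ℓ ^ k)) U w) (γ : GL (Fin r) ℤ) : Prop :=
  Reach S (base P Y) ⟨U, w, fns P Y γ⟩

/-- `N` is the space of the rational vectors fixed by the monodromy group, and no nonzero rational matrix `x`, skew for `ψ`, which
kills `N`, commutes with a subgroup of finite index of the monodromy group, or equivalently with the `n`-th powers of its elements,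
for some `n ≥ 1`. -/
structure NoCent (S : MvPolynomial (Fin m) κ) (P : (Fin m → ℂ) → Matrix (Fin r) (Fin r) ℂ)
    (Y : ∀ k : ℕ, CoverData κ (Fin r → ZMod (ℓ ^ k)) U w) (ψ : Matrix (Fin r) (Fin r) ℤ)
    (N : Submodule ℚ (Fin r → ℚ)) : Prop where
  fixed : ∀ v, v ∈ N ↔ ∀ γ, IsMono S P Y γ →
    (γ : Matrix (Fin r) (Fin r) ℤ).map (Int.cast : ℤ → ℚ) *ᵥ v = v
  cent : ∀ n, 1 ≤ n → ∀ x : Matrix (Fin r) (Fin r) ℚ,
    xᵀ * ψ.map (Int.cast : ℤ → ℚ) + ψ.map (Int.cast : ℤ → ℚ) * x = 0 → (∀ v ∈ N, x *ᵥ v = 0) →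
    (∀ γ, IsMono S P Y γ → (γ : Matrix (Fin r) (Fin r) ℤ).map (Int.cast : ℤ → ℚ) ^ n * x =
      x * (γ : Matrix (Fin r) (Fin r) ℤ).map (Int.cast : ℤ → ℚ) ^ n) → x = 0

end Pool.Agent.Helper79.FZ
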