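import Pool.Agent.Helper79.FZ.Main
import Pool.Agent.Helper79.FZ.Stat

/-!
# FZ: the theorem with the definitions of `Pool.Agent.Helper79.FZ.Stat`

(helper79)
-/

set_option linter.unusedSectionVars false

namespace Pool.Agent.Helper79.FZ

open Matrix Module Pool.Agent.Helper79.BB Pool.Agent.Helper79.HH Pool.Agent.Helper79.HG
  Pool.Agent.Helper79.HI Pool.Agent.Helper64.Per Pool.Agent.Helper88.MT Pool.Agent.Helper79.DD
  Pool.Agent.Helper46.GG Pool.Agent.Helper79.FX Pool.Agent.Helper79.FY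

section

variable {κ : Type} [Field κ] [Algebra κ ℂ] {m r ℓ : ℕ} [Fact ℓ.Prime] {U : Set (Fin m → ℂ)}
  {w : (Fin m → ℂ) → ℂ} {S : MvPolynomial (Fin m) κ} {P : (Fin m → ℂ) → Matrix (Fin r) (Fin r) ℂ}
  {Y : ∀ k : ℕ, CoverData κ (Fin r → ZMod (ℓ ^ k)) U w} {lev : Fin r → ℤ} {j : ℤ}
  {ψ : Matrix (Fin r) (Fin r) ℤ}

theorem mem_MG_iff (h : IsLocalSystem S P Y lev j ψ) (hne : U.Nonempty) (γ : GL (Fin r) ℤ) :
    γ ∈ MG P Y S ψ h.dom ↔ IsMono S P Y γ := by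
  constructor
  · rintro ⟨_, h2⟩
    rw [gact_base] at h2
    exact h2
  · intro hγ
    obtain ⟨γ', hiso, hγ'⟩ := h.int (base P Y) ⟨U, w, fns P Y γ⟩ Relation.ReflTransGen.refl hγ rfl
      fun _ _ => rfl
    obtain ⟨t, ht⟩ := hne
    have h1 := (hγ' t ht).1
    have h2 : pmat (⟨U, w, fns P Y γ⟩ : Elem m (Ix Y)) t =
        P t * (γ : Matrix (Fin r) (Fin r) ℤ).map (Int.cast : ℤ → ℂ) := by
      ext x y
      rfl
    rw [h2, pmat_base] at h1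
    have hP := h.vhs.det ⟨U, w, P⟩ Relation.ReflTransGen.refl t ht
    have h3 : (γ : Matrix (Fin r) (Fin r) ℤ).map (Int.cast : ℤ → ℂ) =
        (γ' : Matrix (Fin r) (Fin r) ℤ).map (Int.cast : ℤ → ℂ) := by
      have h4 := congrArg (fun M => (P t)⁻¹ * M) h1
      simp only [← Matrix.mul_assoc] at h4
      rwa [Matrix.nonsing_inv_mul _ hP, Matrix.one_mul, Matrix.one_mul] at h4
    have h5 : (γ : Matrix (Fin r) (Fin r) ℤ) = γ' := by
      ext x y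
      have h6 := congrFun (congrFun h3 x) y
      simp only [Matrix.map_apply, Int.cast_inj] at h6
      exact h6
    have h7 : γ = γ' := Units.ext h5
    refine ⟨by rw [h7]; exact hiso, ?_⟩
    rw [gact_base]
    exact hγ

end

theorem most' {κ : IntermediateField ℚ Qbar} [FiniteDimensional ℚ κ] {m : ℕ} (hm : 1 ≤ m)
    {F : FamiliesM κ m} {μ r₀ r : ℕ} (E : F.Sub μ r₀ (Fin r)) {S : MvPolynomial (Fin m) κ}
    {U : Set (Fin m → ℂ)} {w : (Fin m → ℂ) → ℂ} (hw : IsEtaleBranch κ U μ w)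
    {P : (Fin m → ℂ) → Matrix (Fin r) (Fin r) ℂ} (hP : E.IsPeriod U w P) {ℓ : ℕ} [Fact ℓ.Prime]
    (Y : ∀ k : ℕ, CoverData κ (Fin r → ZMod (ℓ ^ k)) U w) {lev : Fin r → ℤ}
    (hlev : ∀ x, 0 ≤ lev x ∧ lev x ≤ 2) {ψ : Matrix (Fin r) (Fin r) ℤ}
    (h : IsLocalSystem S P Y lev 2 ψ) {V : Set (Fin m → ℂ)}
    (hV : DeepW F.T U V ∨ IsCompact V ∧ V ⊆ U) {N : Submodule ℚ (Fin r → ℚ)}
    (hN : NoCent S P Y ψ N)
    (hNH : ∀ t ∈ V, ∀ v ∈ N, (fun i => ((v i : ℚ) : ℂ)) ∈ hodgePart lev 2 (P t) 1)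
    {J : Type} [Fintype J] (ω : Module.Basis J ℚ κ)
    {D : ℕ} (hD : 1 ≤ D) (e : ℕ) (N' : Finset (ℕ × J)) (hN' : ∃ j, (0, j) ∈ N') :
    ∃ C θ₀ : ℝ, 0 < θ₀ ∧ ∀ X : ℕ, 1 ≤ X → ((SmallEq ω N' V Y lev ψ N P D e X).ncard : ℝ) ≤
      C * (X : ℝ) ^ ((((D + 1 + m * (e + 1)) * Module.finrank ℚ κ + N'.card : ℕ) : ℝ) - θ₀) := by
  classical
  have hVU : V ⊆ U := by
    rcases hV with h1 | ⟨_, h2⟩
    · exact deepW_sub h1
    · exact h2
  rcases V.eq_empty_or_nonempty with hVe | ⟨t₁, ht₁⟩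
  · refine ⟨0, 1, one_pos, fun X _ => ?_⟩
    have : SmallEq ω N' V Y lev ψ N P D e X = ∅ := by
      rw [Set.eq_empty_iff_forall_notMem]
      rintro a ⟨_, θ, _, _, h3, _⟩
      rw [hVe] at h3
      exact h3
    rw [this, Set.ncard_empty, Nat.cast_zero, zero_mul]
  have hne : U.Nonempty := ⟨t₁, hVU ht₁⟩
  refine most hm E hw hP Y hlev h hV (fun v => ?_) hNH ?_ ω hD e N' hN'
  · rw [hN.fixed v]
    exact forall_congr' fun γ => by rw [mem_MG_iff h hne]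
  · intro Γ hΓ hfin x hx1 hx2 hx3
    refine hN.cent (Γ.relIndex (MG P Y S ψ h.dom)).factorial (Nat.factorial_pos _) x hx1 hx2
      fun γ hγ => ?_
    have hmem := Subgroup.pow_mem_of_relIndex_ne_zero_of_dvd hfin ((mem_MG_iff h hne γ).2 hγ)
      (n := (Γ.relIndex (MG P Y S ψ h.dom)).factorial) fun k hk hk' => Nat.dvd_factorial hk hk'
    have h1 := hx3 _ hmem.1
    have h2 : ((γ ^ (Γ.relIndex (MG P Y S ψ h.dom)).factorial : GL (Fin r) ℤ) :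
        Matrix (Fin r) (Fin r) ℤ).map (Int.cast : ℤ → ℚ) =
        (γ : Matrix (Fin r) (Fin r) ℤ).map (Int.cast : ℤ → ℚ) ^
          (Γ.relIndex (MG P Y S ψ h.dom)).factorial := by
      rw [Units.val_pow_eq_pow_val]
      exact map_pow (Int.castRingHom ℚ).mapMatrix _ _
    rw [h2] at h1
    exact h1

end Pool.Agent.Helper79.FZ
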