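import Pool.Agent.Helper79.FZ.LemU
import Pool.Agent.Helper79.FY.Clause
import Pool.Agent.Helper79.HG.NS
import Pool.Agent.Helper79.HI.PointB

/-!
# FZ-4: the Galois image is, up to finite index, contained in the closure of the monodromy group

`K = kapM κ t (w t)`, `G = Qbar ≃ₐ[K] Qbar`, `ψ₀ = ψ.map Int.cast` over `ℚ`.
1. `G₁` from `galois_clause` with `t₀ = t` (the second assertion): for `σ ∈ G` with image (`AlgEquiv.restrictScalarsHom ℚ`) in `G₁` `toQl (ρ σ)` normalises `zar ℚ_ℓ (qp Γ)`. The inverse image of `G₁` in `G` has finite index (`HI.finiteIndex_comap`).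
2. `exists_level_fix` (`Pool/Agent/Helper79/HG/NS.lean`, with `γ = 1`; `ψᵀ = ψ` and positivity: `hsym`, `hpos`) gives `k`: if `ρ σ ≡ 1` modulo `ℓ ^ k` then `ρ σ` fixes the integral vectors of `N`, so `N` (every rational vector has an integral multiple). The `σ ∈ G` with `ρ σ ≡ 1` modulo `ℓ ^ k` and `det (ρ σ) = 1` are a subgroup of finite index
   (kernels of homomorphisms to finite groups; `det (ρ σ) = ± 1` since `ρ σ` is an isometry of `ψ`, `det ψ ≠ 0`).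
3. `G₂` = the intersection of the subgroups of 1 and 2, `G₃ = gal (G₂.map ρ)` (a subgroup of `GL r ℚ_ℓ`, `Pool/Agent/Helper79/HI/PointB.lean`: `coe_gal`). `lieS_le` for `G₃`: `hG1` isometries, `hG2` (2), `hG3`: `HI.conj_mem_mspan` (`σ` and `σ⁻¹`). `relIndex_zar`: `(zarG ℚ_ℓ (qp Γ)).relIndex G₃ ≠ 0`. `G'` = the `σ ∈ G₂` with `toQl (ρ σ) ∈ zarG`: the comap; it has
   finite index in `G₂` (`Subgroup.relIndex_comap`), so in `G` (`Subgroup.relIndex_mul_relIndex`, `Subgroup.index`).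
-/

namespace Pool.Agent.Helper79.FZ

open Matrix Module Pool.Agent.Helper79.BB Pool.Agent.Helper88.MT Pool.Agent.Helper46.GG Pool.Agent.Helper79.HG
  Pool.Agent.Helper79.HH Pool.Agent.Helper79.HI Pool.Agent.Helper79.HJ Pool.Agent.Helper79.FX
  Pool.Agent.Helper79.FY Pool.Agent.Helper64.Per

section Core

variable {r ℓ : ℕ} [Fact ℓ.Prime]

private theorem ga_ker {G : Type} [Group G] (ρ : G →* GL (Fin r) ℤ_[ℓ]) (k : ℕ) :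
    (((Matrix.GeneralLinearGroup.map (n := Fin r) (PadicInt.toZModPow (p := ℓ) k)).comp ρ).ker).FiniteIndex := by
  have : NeZero (ℓ ^ k) := ⟨pow_ne_zero _ (Fact.out : ℓ.Prime).ne_zero⟩
  have h1 : Finite (GL (Fin r) (ZMod (ℓ ^ k))) := inferInstance
  constructor
  rw [Subgroup.index_ker]
  exact Nat.card_pos.ne'

private theorem ga_cong {g : GL (Fin r) ℤ_[ℓ]} {k : ℕ}
    (h : Matrix.GeneralLinearGroup.map (n := Fin r) (PadicInt.toZModPow (p := ℓ) k) g = 1) (i j : Fin r) :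
    PadicInt.toZModPow k ((g : Matrix (Fin r) (Fin r) ℤ_[ℓ]) i j) =
      (((1 : Matrix (Fin r) (Fin r) ℤ) i j : ℤ) : ZMod (ℓ ^ k)) := by
  have h2 := congrArg (fun u : GL (Fin r) (ZMod (ℓ ^ k)) =>
    (u : Matrix (Fin r) (Fin r) (ZMod (ℓ ^ k))) i j) h
  simp only [Matrix.GeneralLinearGroup.map_apply, Units.val_one] at h2
  rw [h2]
  by_cases hij : i = j
  · subst hij
    rw [Matrix.one_apply_eq, Matrix.one_apply_eq, Int.cast_one]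
  · rw [Matrix.one_apply_ne hij, Matrix.one_apply_ne hij, Int.cast_zero]

private theorem ga_det {ψ : Matrix (Fin r) (Fin r) ℤ} (hψ : ψ.det ≠ 0) {g : Matrix (Fin r) (Fin r) ℤ_[ℓ]}
    (h : gᵀ * ψ.map (Int.cast : ℤ → ℤ_[ℓ]) * g = ψ.map (Int.cast : ℤ → ℤ_[ℓ])) :
    g.det = 1 ∨ g.det = -1 := by
  have h1 : (ψ.map (Int.cast : ℤ → ℤ_[ℓ])).det = ((ψ.det : ℤ) : ℤ_[ℓ]) := by
    have h2 := RingHom.map_det (Int.castRingHom ℤ_[ℓ]) ψ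
    rw [eq_intCast] at h2
    rw [h2]
    rfl
  have h3 : ((ψ.det : ℤ) : ℤ_[ℓ]) ≠ 0 := by exact_mod_cast hψ
  have h4 := congrArg Matrix.det h
  rw [det_mul, det_mul, det_transpose, h1] at h4
  have h5 : (g.det - 1) * (g.det + 1) = 0 := by
    apply mul_left_cancel₀ h3
    linear_combination h4
  rcases mul_eq_zero.1 h5 with h6 | h6
  · exact Or.inl (sub_eq_zero.1 h6)
  · exact Or.inr (eq_neg_of_add_eq_zero_left h6)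

private theorem ga_kerdet {G : Type} [Group G] (ρ : G →* GL (Fin r) ℤ_[ℓ])
    (h : ∀ σ, (ρ σ : Matrix (Fin r) (Fin r) ℤ_[ℓ]).det = 1 ∨
      (ρ σ : Matrix (Fin r) (Fin r) ℤ_[ℓ]).det = -1) :
    (((Matrix.GeneralLinearGroup.det (n := Fin r) (R := ℤ_[ℓ])).comp ρ).ker).FiniteIndex := by
  constructor
  rw [Subgroup.index_ker]
  have h1 : (((Matrix.GeneralLinearGroup.det (n := Fin r) (R := ℤ_[ℓ])).comp ρ).range : Set ℤ_[ℓ]ˣ) ⊆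
      {1, -1} := by
    rintro _ ⟨σ, rfl⟩
    rw [Set.mem_insert_iff, Set.mem_singleton_iff]
    rcases h σ with h2 | h2
    · left
      ext
      simpa using h2
    · right
      ext
      simpa using h2
  have h2 : Finite (((Matrix.GeneralLinearGroup.det (n := Fin r) (R := ℤ_[ℓ])).comp ρ).range) :=
    Set.Finite.subset (by simp) h1
  exact Nat.card_pos.ne'

private theorem ga_map (g : GL (Fin r) ℤ_[ℓ]) :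
    ((Matrix.GeneralLinearGroup.map (algebraMap ℤ_[ℓ] ℚ_[ℓ]) g : GL (Fin r) ℚ_[ℓ]) :
      Matrix (Fin r) (Fin r) ℚ_[ℓ]) =
    (g : Matrix (Fin r) (Fin r) ℤ_[ℓ]).map (algebraMap ℤ_[ℓ] ℚ_[ℓ]) := rfl

private theorem ga_psi (ψ : Matrix (Fin r) (Fin r) ℤ) :
    (ψ.map (Int.cast : ℤ → ℚ)).map (algebraMap ℚ ℚ_[ℓ]) =
      (ψ.map (Int.cast : ℤ → ℤ_[ℓ])).map (algebraMap ℤ_[ℓ] ℚ_[ℓ]) := by
  ext i j
  simp

private theorem ga_iso {ψ : Matrix (Fin r) (Fin r) ℤ} {g : GL (Fin r) ℤ_[ℓ]}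
    (h : (g : Matrix (Fin r) (Fin r) ℤ_[ℓ])ᵀ * ψ.map (Int.cast : ℤ → ℤ_[ℓ]) * g =
      ψ.map (Int.cast : ℤ → ℤ_[ℓ])) :
    ((Matrix.GeneralLinearGroup.map (algebraMap ℤ_[ℓ] ℚ_[ℓ]) g : GL (Fin r) ℚ_[ℓ]) :
      Matrix (Fin r) (Fin r) ℚ_[ℓ])ᵀ * (ψ.map (Int.cast : ℤ → ℚ)).map (algebraMap ℚ ℚ_[ℓ]) *
      ((Matrix.GeneralLinearGroup.map (algebraMap ℤ_[ℓ] ℚ_[ℓ]) g : GL (Fin r) ℚ_[ℓ]) :
      Matrix (Fin r) (Fin r) ℚ_[ℓ]) = (ψ.map (Int.cast : ℤ → ℚ)).map (algebraMap ℚ ℚ_[ℓ]) := by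
  rw [ga_psi, ga_map, ← Matrix.transpose_map, ← Matrix.map_mul, ← Matrix.map_mul, h]

private theorem ga_fix {N : Submodule ℚ (Fin r → ℚ)} {g : GL (Fin r) ℤ_[ℓ]}
    (h : ∀ v : Fin r → ℤ, rv v ∈ N → (g : Matrix (Fin r) (Fin r) ℤ_[ℓ]) *ᵥ lv ℓ v = lv ℓ v)
    {v : Fin r → ℚ} (hv : v ∈ N) :
    ((Matrix.GeneralLinearGroup.map (algebraMap ℤ_[ℓ] ℚ_[ℓ]) g : GL (Fin r) ℚ_[ℓ]) :
      Matrix (Fin r) (Fin r) ℚ_[ℓ]) *ᵥ (fun i => algebraMap ℚ ℚ_[ℓ] (v i)) =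
      fun i => algebraMap ℚ ℚ_[ℓ] (v i) := by
  obtain ⟨m, hm, w, hw⟩ := exists_integral v
  have hw' : rv w = (m : ℚ) • v := by
    funext i
    rw [Pi.smul_apply, smul_eq_mul]
    exact hw i
  have h1 := h w (by rw [hw']; exact N.smul_mem _ hv)
  have h2 : (fun i => algebraMap ℤ_[ℓ] ℚ_[ℓ] (lv ℓ w i)) =
      ((m : ℤ) : ℚ_[ℓ]) • (fun i => algebraMap ℚ ℚ_[ℓ] (v i)) := by
    funext i
    have h3 : algebraMap ℤ_[ℓ] ℚ_[ℓ] (lv ℓ w i) = algebraMap ℚ ℚ_[ℓ] ((w i : ℤ) : ℚ) := by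
      rw [map_intCast]
      unfold lv
      rw [map_intCast]
    rw [h3, hw i, map_mul, map_intCast, Pi.smul_apply, smul_eq_mul]
  have h4 : ((m : ℤ) : ℚ_[ℓ]) ≠ 0 := by exact_mod_cast hm
  have h5 : (g : Matrix (Fin r) (Fin r) ℤ_[ℓ]).map (algebraMap ℤ_[ℓ] ℚ_[ℓ]) *ᵥ
      (fun i => algebraMap ℤ_[ℓ] ℚ_[ℓ] (lv ℓ w i)) = fun i => algebraMap ℤ_[ℓ] ℚ_[ℓ] (lv ℓ w i) := by
    funext i
    have h6 := congrArg (algebraMap ℤ_[ℓ] ℚ_[ℓ]) (congrFun h1 i)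
    rw [← h6]
    exact (RingHom.map_mulVec (algebraMap ℤ_[ℓ] ℚ_[ℓ]) (g : Matrix (Fin r) (Fin r) ℤ_[ℓ]) (lv ℓ w) i).symm
  rw [h2, mulVec_smul] at h5
  rw [ga_map]
  funext i
  have h7 := congrFun h5 i
  rw [Pi.smul_apply, Pi.smul_apply, smul_eq_mul, smul_eq_mul] at h7
  exact mul_left_cancel₀ h4 h7

/-- The group theory. -/
private theorem ga_core {G : Type} [Group G] {ψ : Matrix (Fin r) (Fin r) ℤ} {N : Submodule ℚ (Fin r → ℚ)}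
    {Γ : Subgroup (GL (Fin r) ℤ)} {ρ : G →* GL (Fin r) ℤ_[ℓ]} {G₁ : Subgroup G} (hG₁ : G₁.FiniteIndex)
    (hnorm : ∀ σ ∈ G₁, ∀ a ∈ zar ℚ_[ℓ] (qp Γ : Set (GL (Fin r) ℚ)),
      toQl (ρ σ) * a * (toQl (ρ σ))⁻¹ ∈ zar ℚ_[ℓ] (qp Γ : Set (GL (Fin r) ℚ)))
    (hψ : ψ.det ≠ 0)
    (hdet : ∀ g ∈ qp Γ, (g : Matrix (Fin r) (Fin r) ℚ).det = 1)
    (htr : ∀ x ∈ lieS (qp Γ), (∀ y ∈ lieS (qp Γ), (x * y).trace = 0) → x = 0)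
    (hskew : ∀ x ∈ lieS (qp Γ), xᵀ * ψ.map (Int.cast : ℤ → ℚ) + ψ.map (Int.cast : ℤ → ℚ) * x = 0)
    (hN : ∀ x ∈ lieS (qp Γ), ∀ v ∈ N, x *ᵥ v = 0)
    (hcent : CentZero (ψ.map (Int.cast : ℤ → ℚ)) N (lieS (qp Γ))) (hsym : ψᵀ = ψ)
    (hpos : ∀ v ∈ N, v ≠ 0 → 0 < bil (ψ.map (Int.cast : ℤ → ℚ)) v v)
    (hρ1 : ∀ σ, (ρ σ : Matrix (Fin r) (Fin r) ℤ_[ℓ])ᵀ * ψ.map (Int.cast : ℤ → ℤ_[ℓ]) * ρ σ =
      ψ.map (Int.cast : ℤ → ℤ_[ℓ]))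
    (hρ2 : ∀ σ, ∀ v : Fin r → ℤ, rv v ∈ N → ∃ u : Fin r → ℤ, rv u ∈ N ∧
      (ρ σ : Matrix (Fin r) (Fin r) ℤ_[ℓ]) *ᵥ lv ℓ v = lv ℓ u) :
    ∃ G' : Subgroup G, G'.FiniteIndex ∧
      ∀ σ ∈ G', toQl (ρ σ) ∈ zar ℚ_[ℓ] (qp Γ : Set (GL (Fin r) ℚ)) := by
  obtain ⟨k, hk⟩ := exists_level_fix (ℓ := ℓ) hsym hpos
  set D₁ := (Matrix.GeneralLinearGroup.map (n := Fin r) (PadicInt.toZModPow (p := ℓ) k)).comp ρ
    with hD₁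
  set D₂ := (Matrix.GeneralLinearGroup.det (n := Fin r) (R := ℤ_[ℓ])).comp ρ with hD₂
  have hf1 : D₁.ker.FiniteIndex := ga_ker ρ k
  have hf2 : D₂.ker.FiniteIndex := ga_kerdet ρ fun σ => ga_det hψ (hρ1 σ)
  set G₂ := G₁ ⊓ (D₁.ker ⊓ D₂.ker) with hG₂
  have hf3 : G₂.FiniteIndex := inferInstance
  have hfix : ∀ σ ∈ G₂, ∀ v : Fin r → ℤ, rv v ∈ N →
      (ρ σ : Matrix (Fin r) (Fin r) ℤ_[ℓ]) *ᵥ lv ℓ v = lv ℓ v := by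
    intro σ hσ
    refine hk k le_rfl (ρ σ) (hρ1 σ) (hρ2 σ) 1 (fun v _ => one_mulVec v) ?_
    exact ga_cong hσ.2.1
  have hdet1 : ∀ σ ∈ G₂, (ρ σ : Matrix (Fin r) (Fin r) ℤ_[ℓ]).det = 1 := by
    intro σ hσ
    have h1 : D₂ σ = 1 := hσ.2.2
    have h2 : ((D₂ σ : ℤ_[ℓ]ˣ) : ℤ_[ℓ]) = 1 := by
      rw [h1]
      rfl
    exact h2
  have hle : lieS (gal (G₂.map ρ)) ≤ mspan ℚ_[ℓ] (lieS (qp Γ)) := by
    refine lieS_le (ψ := ψ.map (Int.cast : ℤ → ℚ)) (N := N) ?_ htr hskew hN hcent ?_ ?_ ?_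
    · have h2 := RingHom.map_det (Int.castRingHom ℚ) ψ
      have h3 : (ψ.map (Int.cast : ℤ → ℚ)).det = ((ψ.det : ℤ) : ℚ) := by
        rw [eq_intCast] at h2
        rw [h2]
        rfl
      rw [h3]
      exact_mod_cast hψ
    · rintro _ ⟨_, ⟨σ, hσ, rfl⟩, rfl⟩
      exact ga_iso (hρ1 σ)
    · rintro _ ⟨_, ⟨σ, hσ, rfl⟩, rfl⟩ v hv
      exact ga_fix (hfix σ hσ) hv
    · rintro _ ⟨_, ⟨σ, hσ, rfl⟩, rfl⟩ y hy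
      have h1 := conj_mem_mspan (g := ρ σ) (hnorm σ hσ.1) (fun a ha => by
        have h2 := hnorm σ⁻¹ (G₁.inv_mem hσ.1) a ha
        rwa [map_inv] at h2) hy
      rw [← map_inv]
      exact h1
  have hrel : (zarG ℚ_[ℓ] (qp Γ)).relIndex (gal (G₂.map ρ)) ≠ 0 := by
    refine relIndex_zar hdet ?_ hle
    rintro _ ⟨_, ⟨σ, hσ, rfl⟩, rfl⟩
    have h1 := RingHom.map_det (algebraMap ℤ_[ℓ] ℚ_[ℓ]) (ρ σ : Matrix (Fin r) (Fin r) ℤ_[ℓ])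
    rw [hdet1 σ hσ, map_one] at h1
    exact h1.symm
  set φ := (Matrix.GeneralLinearGroup.map (n := Fin r) (algebraMap ℤ_[ℓ] ℚ_[ℓ])).comp ρ with hφ
  refine ⟨((zarG ℚ_[ℓ] (qp Γ)).comap φ) ⊓ G₂, ⟨?_⟩, fun σ hσ => hσ.1⟩
  have h1 : ((zarG ℚ_[ℓ] (qp Γ)).comap φ).relIndex G₂ ≠ 0 := by
    rw [Subgroup.relIndex_comap, hφ, ← Subgroup.map_map]
    exact hrel
  rw [← Subgroup.inf_relIndex_right] at h1
  rw [← Subgroup.relIndex_mul_index (inf_le_right : ((zarG ℚ_[ℓ] (qp Γ)).comap φ) ⊓ G₂ ≤ G₂)]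
  exact mul_ne_zero h1 hf3.index_ne_zero

end Core

variable {κ : IntermediateField ℚ Qbar} [FiniteDimensional ℚ κ] {m r ℓ μ : ℕ} [Fact ℓ.Prime]
  {U : Set (Fin m → ℂ)}
  {w : (Fin m → ℂ) → ℂ} {S : MvPolynomial (Fin m) κ} {P : (Fin m → ℂ) → Matrix (Fin r) (Fin r) ℂ}
  {Y : ∀ k : ℕ, CoverData κ (Fin r → ZMod (ℓ ^ k)) U w} {lev : Fin r → ℤ} {j : ℤ}
  {ψ : Matrix (Fin r) (Fin r) ℤ} {N : Submodule ℚ (Fin r → ℚ)}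

theorem exists_gal (h : IsLocalSystem S P Y lev j ψ) (hw : IsEtaleBranch κ U μ w)
    {Γ : Subgroup (GL (Fin r) ℤ)} (hΓ : Γ ≤ MG P Y S ψ h.dom)
    (hfin : Γ.relIndex (MG P Y S ψ h.dom) ≠ 0) (hdense : DenseG (qp Γ)) (hψ : ψ.det ≠ 0)
    (hdet : ∀ g ∈ qp Γ, (g : Matrix (Fin r) (Fin r) ℚ).det = 1)
    (htr : ∀ x ∈ lieS (qp Γ), (∀ y ∈ lieS (qp Γ), (x * y).trace = 0) → x = 0)
    (hskew : ∀ x ∈ lieS (qp Γ), xᵀ * ψ.map (Int.cast : ℤ → ℚ) + ψ.map (Int.cast : ℤ → ℚ) * x = 0)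
    (hN : ∀ x ∈ lieS (qp Γ), ∀ v ∈ N, x *ᵥ v = 0)
    (hcent : CentZero (ψ.map (Int.cast : ℤ → ℚ)) N (lieS (qp Γ))) (hsym : ψᵀ = ψ)
    (hpos : ∀ v ∈ N, v ≠ 0 → 0 < bil (ψ.map (Int.cast : ℤ → ℚ)) v v) {t : Fin m → ℂ} (ht : t ∈ U)
    (halg : ∀ i, IsAlgebraic ℚ (t i))
    {ρ : (Qbar ≃ₐ[kapM κ t (w t)] Qbar) →* GL (Fin r) ℤ_[ℓ]}
    (hρ : IsGalRep (fun σ z => σ z) (pts Y t) ρ)
    (hρ1 : ∀ σ, (ρ σ : Matrix (Fin r) (Fin r) ℤ_[ℓ])ᵀ * ψ.map (Int.cast : ℤ → ℤ_[ℓ]) * ρ σ =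
      ψ.map (Int.cast : ℤ → ℤ_[ℓ]))
    (hρ2 : ∀ σ, ∀ v : Fin r → ℤ, rv v ∈ N → ∃ u : Fin r → ℤ, rv u ∈ N ∧
      (ρ σ : Matrix (Fin r) (Fin r) ℤ_[ℓ]) *ᵥ lv ℓ v = lv ℓ u) :
    ∃ G' : Subgroup (Qbar ≃ₐ[kapM κ t (w t)] Qbar), G'.FiniteIndex ∧
      ∀ σ ∈ G', toQl (ρ σ) ∈ zar ℚ_[ℓ] (qp Γ : Set (GL (Fin r) ℚ)) := by
  obtain ⟨G₁, hG₁, h1⟩ := galois_clause h hw hΓ hfin hdense ht ht halg halg
  have hf := HI.finiteIndex_comap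
    (AlgEquiv.restrictScalarsHom ℚ : (Qbar ≃ₐ[kapM κ t (w t)] Qbar) →* (Qbar ≃ₐ[ℚ] Qbar)) hG₁
  refine ga_core hf ?_ hψ hdet htr hskew hN hcent hsym hpos hρ1 hρ2
  intro σ hσ
  have hg : IsGalElt (fun z => (AlgEquiv.restrictScalarsHom ℚ :
      (Qbar ≃ₐ[kapM κ t (w t)] Qbar) →* (Qbar ≃ₐ[ℚ] Qbar)) σ z) (pts Y t) (ρ σ) :=
    fun k v i z hz => hρ σ k v i z hz
  exact (h1 _ hσ (ρ σ) (ρ σ) hg hg).2

end Pool.Agent.Helper79.FZ
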