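import Pool.Agent.Helper79.FZ.LemU

/-!
# FZ-3: the Hodge circle is contained in the closure of the monodromy group

`C` = the group of the `g` whose matrix is `Em lev 2 ψ u P` for some `u ≠ 0` (`Em_mul`, `Em_one`; the inverse of the element of `u` is the element of `u⁻¹`). `lieS_le` for `G = C`, `K = ℂ` (`Rat.cast = algebraMap ℚ ℂ`): `hG1` is `Em_isom`; `hG2`: `Em_eq` and `HJ.sc_mulVec` (an element of `hodgePart lev 2 P 1` is multiplied by `u ^ (2 * 1 - 2) = 1`), or `circle_iff` for `‖u‖ = 1` and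
the general case by `Em_eq`; `hG3` is `AdStable` (the inverse matrix). `hdetG`: `Em_det`. `relIndex_zar`: `(zarG ℂ Γ).relIndex C = n ≠ 0`. For every `a ∈ C` some `a ^ k`, `0 < k ≤ n`, is in `zarG` (`Subgroup.exists_pow_mem_of_relIndex_ne_zero`), so `a ^ (n !) ∈ zarG`. Given `u ≠ 0` choose `v` with `v ^ (n !) = u` (`IsAlgClosed.exists_pow_nat_eq`):
the element of `v` to the power `n !` is the element of `u`.
-/

namespace Pool.Agent.Helper79.FZ

open Matrix Module Pool.Agent.Helper88.MT Pool.Agent.Helper46.GG Pool.Agent.Helper79.HG Pool.Agent.Helper79.HH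
  Pool.Agent.Helper79.HI Pool.Agent.Helper79.HJ Pool.Agent.Helper79.FX

variable {r : ℕ} {lev : Fin r → ℤ} {ψ : Matrix (Fin r) (Fin r) ℚ} {P : Matrix (Fin r) (Fin r) ℂ}
  {N : Submodule ℚ (Fin r → ℚ)} {Γ : Subgroup (GL (Fin r) ℚ)}

/-- The Hodge circle as a group. -/
private noncomputable def fzCircle (hpol : IsPolarized lev 2 ψ P) (hP : IsUnit P.det) :
    Subgroup (GL (Fin r) ℂ) where
  carrier := {g | ∃ u : ℂ, u ≠ 0 ∧ (g : Matrix (Fin r) (Fin r) ℂ) = Em lev 2 ψ u P}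
  mul_mem' := by
    rintro a b ⟨u, hu, ha⟩ ⟨v, hv, hb⟩
    exact ⟨u * v, mul_ne_zero hu hv, by rw [Units.val_mul, ha, hb, Em_mul hpol hP hu hv]⟩
  one_mem' := ⟨1, one_ne_zero, by rw [Em_one hpol hP]; rfl⟩
  inv_mem' := by
    rintro a ⟨u, hu, ha⟩
    refine ⟨u⁻¹, inv_ne_zero hu, ?_⟩
    have h1 : Em lev 2 ψ u P * Em lev 2 ψ u⁻¹ P = 1 := by
      rw [Em_mul hpol hP hu (inv_ne_zero hu), mul_inv_cancel₀ hu, Em_one hpol hP]
    rw [Matrix.coe_units_inv, ha]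
    exact Matrix.inv_eq_right_inv h1

theorem circle_mem_zar (hpol : IsPolarized lev 2 ψ P) (hP : IsUnit P.det)
    (hdet : ∀ g ∈ Γ, (g : Matrix (Fin r) (Fin r) ℚ).det = 1)
    (hiso : ∀ γ ∈ Γ, (γ : Matrix (Fin r) (Fin r) ℚ)ᵀ * ψ * γ = ψ) (hAd : AdStable lev 2 ψ P Γ)
    (hN : ∀ x ∈ lieS Γ, ∀ v ∈ N, x *ᵥ v = 0) (hcent : CentZero ψ N (lieS Γ))
    (hNH : ∀ v ∈ N, (fun i => ((v i : ℚ) : ℂ)) ∈ hodgePart lev 2 P 1) {u : ℂ} (hu : u ≠ 0)
    {g : GL (Fin r) ℂ} (hg : (g : Matrix (Fin r) (Fin r) ℂ) = Em lev 2 ψ u P) :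
    g ∈ zar ℂ (Γ : Set (GL (Fin r) ℚ)) := by
  have hqc : ψ.map (algebraMap ℚ ℂ) = qc ψ := rfl
  have hψ : ψ.det ≠ 0 := by
    intro h0
    apply det_qc_ne hpol
    have h1 : (qc ψ).det = (Rat.castHom ℂ) ψ.det := (RingHom.map_det (Rat.castHom ℂ) ψ).symm
    rw [h1, h0, map_zero]
  have hle : lieS (fzCircle hpol hP) ≤ mspan ℂ (lieS Γ) := by
    refine lieS_le hψ (fun x hx h => trace_nondeg hpol hP hAd hiso hx h)
      (fun x hx => skew hiso hx) hN hcent ?_ ?_ ?_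
    · rintro a ⟨v, hv, ha⟩
      rw [ha, hqc]
      exact Em_isom hpol hP hv
    · rintro a ⟨v, hv, ha⟩ w hw
      obtain ⟨Q, deg, hQu, hQ⟩ := exists_basis hpol.span
      rw [ha, Em_eq hpol hP hQu hQ]
      have h2 := sc_mulVec hpol hQu hQ (fun q => v ^ (2 * q - 2)) (hNH w hw)
      have h3 : v ^ ((2 : ℤ) * 1 - 2) = 1 := by norm_num
      rw [h3, one_smul] at h2
      exact h2
    · rintro a ⟨v, hv, ha⟩ y hy
      rw [Matrix.coe_units_inv, ha]
      exact hAd v hv y hy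
  have hdetC : ∀ a ∈ fzCircle hpol hP, (a : Matrix (Fin r) (Fin r) ℂ).det = 1 := by
    rintro a ⟨v, hv, ha⟩
    rw [ha]
    exact Em_det hpol hP hv
  have hrel := relIndex_zar hdet hdetC hle
  obtain ⟨v, hv⟩ := IsAlgClosed.exists_pow_nat_eq u
    (Nat.factorial_pos ((zarG ℂ Γ).relIndex (fzCircle hpol hP)))
  have hv0 : v ≠ 0 := by
    rintro rfl
    apply hu
    rw [← hv]
    exact zero_pow (Nat.factorial_pos _).ne'
  have hmem : ofDet (Em lev 2 ψ v P) (Em_det hpol hP hv0) ∈ fzCircle hpol hP := ⟨v, hv0, rfl⟩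
  have hpow : ∀ k : ℕ, ((ofDet (Em lev 2 ψ v P) (Em_det hpol hP hv0) ^ k : GL (Fin r) ℂ) :
      Matrix (Fin r) (Fin r) ℂ) = Em lev 2 ψ (v ^ k) P := by
    intro k
    induction k with
    | zero => rw [pow_zero, pow_zero, Em_one hpol hP]; rfl
    | succ k ih =>
      rw [pow_succ, pow_succ, Units.val_mul, ih, ofDet_coe, Em_mul hpol hP (pow_ne_zero k hv0) hv0]
  have h4 := Subgroup.pow_mem_of_relIndex_ne_zero_of_dvd hrel hmem
    (n := ((zarG ℂ Γ).relIndex (fzCircle hpol hP)).factorial)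
    (fun m h0 hm => Nat.dvd_factorial h0 hm)
  have h5 : g = ofDet (Em lev 2 ψ v P) (Em_det hpol hP hv0) ^
      ((zarG ℂ Γ).relIndex (fzCircle hpol hP)).factorial := by
    apply Units.ext
    rw [hpow, hg, hv]
  rw [h5]
  exact (Subgroup.mem_inf.mp h4).1

end Pool.Agent.Helper79.FZ
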