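import Pool.Agent.Helper79.FZ.Norm
import Pool.Agent.Helper79.HI.DenseAd

/-!
# FZ-2: groups which normalise the Lie algebra of the monodromy group are almost contained in its closure

`G` is a group of matrices over `K`, `𝔤 = lieS Γ`, `𝔤_K = mspan K 𝔤`, `ψ' = ψ.map (algebraMap ℚ K)`.
* `kills`: the linear polynomials `(X v - v) i` vanish on `Γ`.
* `lieS_le`: let `x ∈ lieS G`. (1) `x` is skew for `ψ'`: the polynomials `(Xᵀ ψ' X - ψ') i k` vanish on `G` (as `FX.skew`, over `K`; see also `hle_so` in `GG/FinIndex.lean` and `mem_soT_of_tangent`, `Helper88/MT/SoIrr.lean`). (2) `x` kills `N`: the linear polynomials `(X v - v) i` vanish on `G`. (3) for `y ∈ 𝔤_K`: `x y - y x ∈ 𝔤_K`: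
  `HI.lie_mem_of_dense` with `k = F = K`, `W = 𝔤_K`, `c = 0` (`ψ'.det ≠ 0`). `mem_of_normal`.
* `relIndex_zar`: `J` = the ideal of the polynomials over `K` which vanish on `Γ` (`van K (mats Γ)`, an ideal). `HI.relIndex_ne_zero` for the group `G` and `Γ' = zarG K Γ`: `h1`: `1 ∈ Γ`. `hJ`: for `x ∈ lieS G`, `x ∈ mspan K (lieS Γ)`, `der x` maps `J` to `J` (as in `HI.lieS_map`: `der_mem_van`, `der_mem_of_mspan`; additive and homogeneous in `x`).
  `hΓ'`: if `J` vanishes at `g ∈ G` and `f ∈ vanGL ℚ Γ` then `f₁ = toLin f` (the variable `none` replaced by `1`) is a rational polynomial which vanishes on `Γ` (`det γ = 1`, `evGL_of_det`), so it is in `J`, and `evGL g f = evM g f₁ = 0` (`det g = 1`).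
-/

namespace Pool.Agent.Helper79.FZ

open Matrix Module Pool.Agent.Helper88.MT Pool.Agent.Helper46.GG Pool.Agent.Helper79.HG Pool.Agent.Helper79.HH
  Pool.Agent.Helper79.HI Pool.Agent.Helper79.HJ

variable {r : ℕ} {K : Type} [Field K] [Algebra ℚ K] {ψ : Matrix (Fin r) (Fin r) ℚ}
  {N : Submodule ℚ (Fin r → ℚ)} {Γ : Subgroup (GL (Fin r) ℚ)} {G : Subgroup (GL (Fin r) K)}

private lemma fz_mapid {F : Type} [Field F] (A : Matrix (Fin r) (Fin r) F) :
    A.map (algebraMap F F) = A := by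
  ext i j; simp

theorem kills (hfix : ∀ γ ∈ Γ, ∀ v ∈ N, (γ : Matrix (Fin r) (Fin r) ℚ) *ᵥ v = v) :
    ∀ x ∈ lieS Γ, ∀ v ∈ N, x *ᵥ v = 0 := by
  intro x hx v hv
  have h6 : x ∈ soT (0 : Matrix (Fin r) (Fin r) ℚ) (N : Set (Fin r → ℚ)) := by
    refine mem_soT_of_tangent (R := ℚ) (S := mats Γ) ?_ ?_ ?_
    · rintro _ ⟨g, hg, rfl⟩
      rw [fz_mapid]
      simp
    · rintro _ ⟨g, hg, rfl⟩ w hw
      exact hfix g hg w hw
    · intro f hf
      exact mem_van_self.mp (hx f (mem_van_self.mpr hf)) 1 ⟨1, Γ.one_mem, rfl⟩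
  exact h6.2 v hv

theorem lieS_le (hψ : ψ.det ≠ 0) (htr : ∀ x ∈ lieS Γ, (∀ y ∈ lieS Γ, (x * y).trace = 0) → x = 0)
    (hskew : ∀ x ∈ lieS Γ, xᵀ * ψ + ψ * x = 0) (hN : ∀ x ∈ lieS Γ, ∀ v ∈ N, x *ᵥ v = 0)
    (hcent : CentZero ψ N (lieS Γ))
    (hG1 : ∀ g ∈ G, (g : Matrix (Fin r) (Fin r) K)ᵀ * ψ.map (algebraMap ℚ K) * g =
      ψ.map (algebraMap ℚ K))
    (hG2 : ∀ g ∈ G, ∀ v ∈ N, (g : Matrix (Fin r) (Fin r) K) *ᵥ (fun i => algebraMap ℚ K (v i)) =
      fun i => algebraMap ℚ K (v i))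
    (hG3 : ∀ g ∈ G, ∀ y ∈ mspan K (lieS Γ), (g : Matrix (Fin r) (Fin r) K) * y *
      ((g⁻¹ : GL (Fin r) K) : Matrix (Fin r) (Fin r) K) ∈ mspan K (lieS Γ)) :
    lieS G ≤ mspan K (lieS Γ) := by
  intro x hx
  have hψ' : (ψ.map (algebraMap ℚ K)).det ≠ 0 := by
    have h0 : (ψ.map (algebraMap ℚ K)).det = algebraMap ℚ K ψ.det := (RingHom.map_det _ _).symm
    rw [h0]
    exact (map_ne_zero (algebraMap ℚ K)).mpr hψ
  have h6 : x ∈ soT (ψ.map (algebraMap ℚ K))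
      {w : Fin r → K | ∃ v ∈ N, w = fun i => algebraMap ℚ K (v i)} := by
    refine mem_soT_of_tangent (R := K) (S := mats G) ?_ ?_ ?_
    · rintro _ ⟨g, hg, rfl⟩
      rw [fz_mapid]
      exact hG1 g hg
    · rintro _ ⟨g, hg, rfl⟩ w ⟨v, hv, rfl⟩
      exact hG2 g hg v hv
    · intro f hf
      exact mem_van_self.mp (hx f (mem_van_self.mpr hf)) 1 ⟨1, G.one_mem, rfl⟩
  refine mem_of_normal htr lieS_lie hskew hN hcent h6.1 ?_ ?_
  · intro v hv
    exact h6.2 _ ⟨v, hv, rfl⟩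
  · intro y hy
    have h7 := lie_mem_of_dense (k := K) (F := K) (c := 0) hψ' hG1 (W := mspan K (lieS Γ))
      (y := y) (fun γ hγ => by
        rw [fz_mapid, fz_mapid, sub_zero]
        exact hG3 γ hγ y hy) hx
    rwa [fz_mapid] at h7

theorem relIndex_zar (hdet : ∀ g ∈ Γ, (g : Matrix (Fin r) (Fin r) ℚ).det = 1)
    (hdetG : ∀ g ∈ G, (g : Matrix (Fin r) (Fin r) K).det = 1) (hle : lieS G ≤ mspan K (lieS Γ)) :
    (zarG K Γ).relIndex G ≠ 0 := by
  have : CharZero K := algebraRat.charZero K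
  let J : Ideal (MvPolynomial (Fin r × Fin r) K) :=
    { carrier := {f | f ∈ van K (mats Γ)}
      add_mem' := fun {a b} ha hb => (van K (mats Γ)).add_mem ha hb
      zero_mem' := (van K (mats Γ)).zero_mem
      smul_mem' := by
        intro c f hf
        change c • f ∈ van K (mats Γ)
        replace hf : f ∈ van K (mats Γ) := hf
        rw [mem_van] at hf ⊢
        intro M hM
        rw [smul_eq_mul, map_mul, hf M hM, mul_zero] }
  refine relIndex_ne_zero (J := J) ?_ ?_ ?_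
  · intro f hf
    have h2 := mem_van.mp (show f ∈ van K (mats Γ) from hf) 1 ⟨1, Γ.one_mem, rfl⟩
    rwa [Matrix.map_one _ (map_zero _) (map_one _)] at h2
  · intro x hx f hf
    exact der_mem_of_mspan (𝓘 := van K (mats Γ)) (fun y hy => der_mem_van (mem_lieS.mp hy))
      (hle hx) f hf
  · intro g hg hJ
    rw [mem_zarG]
    intro f hf
    have h1 : MvPolynomial.map (algebraMap ℚ K) (toLin f) ∈ van K (mats Γ) := by
      rw [mem_van]
      rintro M ⟨γ, hγ, rfl⟩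
      rw [evM_map, evM_toLin, ← evGL_of_det (hdet γ hγ)]
      have h2 : evGL γ f = 0 := hf γ hγ
      rw [h2, map_zero]
    have h3 := hJ _ h1
    rw [evM_mapAlg, evM_toLin, ← evGL_of_det (hdetG g hg)] at h3
    exact h3

end Pool.Agent.Helper79.FZ
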