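import Pool.Agent.Helper79.FZ.Gal
import Pool.Agent.Helper79.FZ.Hodge
import Pool.Agent.Helper79.FY.Main

/-!
# FZ: the Mumford-Tate conjecture for `H^2` holds for most fibres of the families with no centraliser

(helper79)
-/

set_option linter.unusedSectionVars false

namespace Pool.Agent.Helper79.FZ

open Matrix Module Pool.Agent.Helper79.BB Pool.Agent.Helper79.HH Pool.Agent.Helper79.HG
  Pool.Agent.Helper79.HI Pool.Agent.Helper64.Per Pool.Agent.Helper88.MT Pool.Agent.Helper79.DD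
  Pool.Agent.Helper46.GG Pool.Agent.Helper79.FX Pool.Agent.Helper79.FY

theorem most {κ : IntermediateField ℚ Qbar} [FiniteDimensional ℚ κ] {m : ℕ} (hm : 1 ≤ m)
    {F : FamiliesM κ m} {μ r₀ r : ℕ} (E : F.Sub μ r₀ (Fin r)) {S : MvPolynomial (Fin m) κ}
    {U : Set (Fin m → ℂ)} {w : (Fin m → ℂ) → ℂ} (hw : IsEtaleBranch κ U μ w)
    {P : (Fin m → ℂ) → Matrix (Fin r) (Fin r) ℂ} (hP : E.IsPeriod U w P) {ℓ : ℕ} [Fact ℓ.Prime]
    (Y : ∀ k : ℕ, CoverData κ (Fin r → ZMod (ℓ ^ k)) U w) {lev : Fin r → ℤ}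
    (hlev : ∀ x, 0 ≤ lev x ∧ lev x ≤ 2) {ψ : Matrix (Fin r) (Fin r) ℤ}
    (h : IsLocalSystem S P Y lev 2 ψ) {V : Set (Fin m → ℂ)}
    (hV : DeepW F.T U V ∨ IsCompact V ∧ V ⊆ U) {N : Submodule ℚ (Fin r → ℚ)}
    (hN : ∀ v, v ∈ N ↔ ∀ γ ∈ MG P Y S ψ h.dom,
      (γ : Matrix (Fin r) (Fin r) ℤ).map (Int.cast : ℤ → ℚ) *ᵥ v = v)
    (hNH : ∀ t ∈ V, ∀ v ∈ N, (fun i => ((v i : ℚ) : ℂ)) ∈ hodgePart lev 2 (P t) 1)
    (hcent : ∀ Γ : Subgroup (GL (Fin r) ℤ), Γ ≤ MG P Y S ψ h.dom →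
      Γ.relIndex (MG P Y S ψ h.dom) ≠ 0 → ∀ x : Matrix (Fin r) (Fin r) ℚ,
        xᵀ * ψ.map (Int.cast : ℤ → ℚ) + ψ.map (Int.cast : ℤ → ℚ) * x = 0 → (∀ v ∈ N, x *ᵥ v = 0) →
        (∀ γ ∈ Γ, (γ : Matrix (Fin r) (Fin r) ℤ).map (Int.cast : ℤ → ℚ) * x =
          x * (γ : Matrix (Fin r) (Fin r) ℤ).map (Int.cast : ℤ → ℚ)) → x = 0)
    {J : Type} [Fintype J] (ω : Module.Basis J ℚ κ)
    {D : ℕ} (hD : 1 ≤ D) (e : ℕ) (N' : Finset (ℕ × J)) (hN' : ∃ j, (0, j) ∈ N') :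
    ∃ C θ₀ : ℝ, 0 < θ₀ ∧ ∀ X : ℕ, 1 ≤ X → ((SmallEq ω N' V Y lev ψ N P D e X).ncard : ℝ) ≤
      C * (X : ℝ) ^ ((((D + 1 + m * (e + 1)) * Module.finrank ℚ κ + N'.card : ℕ) : ℝ) - θ₀) := by
  classical
  have hV' : DeepW F.T U V := by
    rcases hV with h1 | ⟨h1, h2⟩
    · exact h1
    · exact deepW_compact F.T h.vhs.analytic.1 h1 h2
  have hVU := deepW_sub hV'
  have hv := h.vhs
  have hdetP : ∀ t ∈ U, IsUnit (P t).det := fun t ht => hv.det ⟨U, w, P⟩ Relation.ReflTransGen.refl t ht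
  have hpol : ∀ t ∈ U, IsPolarized lev 2 (ψ.map (Int.cast : ℤ → ℚ)) (P t) := fun t ht =>
    hv.pol ⟨U, w, P⟩ Relation.ReflTransGen.refl t ht
  -- the empty case
  rcases V.eq_empty_or_nonempty with hVe | ⟨t₁, ht₁⟩
  · refine ⟨0, 1, one_pos, fun X _ => ?_⟩
    have : SmallEq ω N' V Y lev ψ N P D e X = ∅ := by
      rw [Set.eq_empty_iff_forall_notMem]
      rintro a ⟨_, θ, _, _, h3, _⟩
      rw [hVe] at h3
      exact h3
    rw [this, Set.ncard_empty, Nat.cast_zero, zero_mul]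
  have hne : U.Nonempty := ⟨t₁, hVU ht₁⟩
  obtain ⟨Γ, hΓ, hfin, hdense, hdet1, hperf⟩ := exists_group hv hw.branch (hVU ht₁)
  have hiso := FX.isom_qp hv.dom hΓ
  have hMG : Γ ≤ MG P Y S ψ h.dom := fun γ hγ => mem_MG_of_MM h hne (hΓ hγ)
  have hMM : MG P Y S ψ h.dom = MM (S.map (algebraMap κ ℂ)) ⟨U, w, P⟩ (ψ.map (Int.cast : ℤ → ℚ))
      h.vhs.dom :=
    le_antisymm (fun γ hγ => mem_MM_of_MG h hγ) fun γ hγ => mem_MG_of_MM h hne hγ
  have hfin' : Γ.relIndex (MG P Y S ψ h.dom) ≠ 0 := by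
    rw [hMM]
    exact hfin
  obtain ⟨H, hHψ, hHs⟩ := exists_lattice hlev (hdetP t₁ (hVU ht₁)) (hpol t₁ (hVU ht₁))
  have hψd : ψ.det ≠ 0 := by rw [← hHψ]; exact H.det_ne_zero
  have hsym : ψᵀ = ψ := by rw [← hHψ]; exact H.symm
  have hψq : (ψ.map (Int.cast : ℤ → ℚ)).det ≠ 0 := det_map_ne hψd
  obtain ⟨K, hK⟩ : ∃ K, Level Γ ℓ K := group_big hψq hiso hdet1 hperf ℓ
  obtain ⟨C₁, θ₁, hθ₁, h₁⟩ : ∃ C θ₀ : ℝ, 0 < θ₀ ∧ ∀ X : ℕ, 1 ≤ X →
      ((SmallMT ω N' U V w P lev 2 (ψ.map (Int.cast : ℤ → ℚ)) D e X).ncard : ℝ) ≤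
      C * (X : ℝ) ^ ((((D + 1 + m * (e + 1)) * Module.finrank ℚ κ + N'.card : ℕ) : ℝ) - θ₀) := by
    rcases Nat.eq_zero_or_pos r with hr | hr
    · subst hr
      refine ⟨0, 1, one_pos, fun X _ => ?_⟩
      have : SmallMT ω N' U V w P lev 2 (ψ.map (Int.cast : ℤ → ℚ)) D e X = ∅ := by
        rw [Set.eq_empty_iff_forall_notMem]
        rintro a ⟨_, θ, _, _, _, h3⟩
        apply h3
        intro g _ _ x _ y _
        have h4 : x * y - y * x = 0 := Subsingleton.elim _ _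
        rw [h4]
        exact Submodule.zero_mem _
      rw [this, Set.ncard_empty, Nat.cast_zero, zero_mul]
    · have : Nonempty (Fin r) := ⟨⟨0, hr⟩⟩
      exact small_count hm E hv.analytic.1 hv.analytic.2.1 hw.branch hP (Or.inl hV')
        (fun t ht => hdetP t (hVU ht)) (fun t ht => hpol t (hVU ht)) ω hD e N' hN'
  obtain ⟨C₂, θ₂, hθ₂, h₂⟩ := level_count hm hv.analytic.1 hv.analytic.2.1 hw.branch (Y K) F.T_ne hV'
    ω hD e N' hN'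
  obtain ⟨C, θ₀, hθ₀, hC⟩ := sum_bound (Finset.univ : Finset (Fin 2))
    (f := fun p X => if p = 0 then
      ((SmallMT ω N' U V w P lev 2 (ψ.map (Int.cast : ℤ → ℚ)) D e X).ncard : ℝ)
      else ((SmallGal ω N' (Y K) V D e X).ncard : ℝ))
    (n := (((D + 1 + m * (e + 1)) * Module.finrank ℚ κ + N'.card : ℕ) : ℝ)) (by
      intro p _
      fin_cases p
      · exact ⟨C₁, θ₁, hθ₁, h₁⟩
      · exact ⟨C₂, θ₂, hθ₂, h₂⟩)
  refine ⟨C, θ₀, hθ₀, fun X hX => le_trans ?_ (hC X hX)⟩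
  rw [Fin.sum_univ_two]
  simp only [if_true, Fin.isValue, one_ne_zero, if_false]
  -- facts on the group
  have hNfix : ∀ γ ∈ qp Γ, ∀ v ∈ N, (γ : Matrix (Fin r) (Fin r) ℚ) *ᵥ v = v := by
    rintro _ ⟨γ, hγ, rfl⟩ v hv
    exact (hN v).1 hv γ (hMG hγ)
  have hNk := kills (Γ := qp Γ) hNfix
  have hcz : CentZero (ψ.map (Int.cast : ℤ → ℚ)) N (lieS (qp Γ)) := by
    intro x hx1 hx2 hx3
    refine hcent Γ hMG hfin' x hx1 hx2 fun γ hγ => ?_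
    exact hdense.comm_of_lie (fun y hy => (hx3 y hy).symm) _ ⟨γ, hγ, rfl⟩
  have hsub : SmallEq ω N' V Y lev ψ N P D e X ⊆
      SmallMT ω N' U V w P lev 2 (ψ.map (Int.cast : ℤ → ℚ)) D e X ∪ SmallGal ω N' (Y K) V D e X := by
    rintro a ⟨ha, θ, hθ, hq, hθV, hne'⟩
    by_contra hcon
    rw [Set.mem_union, not_or] at hcon
    obtain ⟨hA, hB⟩ := hcon
    refine hne' ?_
    set t : Fin m → ℂ := pointU ω N' a θ with ht
    have htU : t ∈ U := hVU hθV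
    have halg : ∀ i, IsAlgebraic ℚ (t i) := algebraic_pointU ω N' a θ
    have hconn : IsConnMono Y lev ψ P {t} t Γ :=
      h.isConnMono_of hw hΓ hfin hdense hdet1 hperf (by
        intro s hs
        rw [Set.mem_singleton_iff] at hs
        rw [hs]
        exact htU) rfl halg
    have hAd := adStable hv hw.branch htU hΓ hfin hdet1
    have htr : ∀ x ∈ lieS (qp Γ), (∀ y ∈ lieS (qp Γ), (x * y).trace = 0) → x = 0 := fun x hx h0 =>
      trace_nondeg (hpol t htU) (hdetP t htU) hAd hiso hx h0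
    have hpos := pos_of_hodge (hpol t htU) (hNH t hθV)
    intro ρ hρ hρ1 hρ2 G' hG' hGc
    obtain ⟨G₀, hG₀, hG₀'⟩ := exists_gal h hw hMG hfin' hdense hψd hdet1 htr
      (fun x hx => skew hiso hx) hNk hcz hsym hpos htU halg hρ hρ1 hρ2
    refine q1_of hw.branch hlev hψd hconn (hdetP t htU) (hpol t htU) hρ hG₀ (Or.inr ⟨?_, hG₀'⟩) hK rfl
      htU halg (hdetP t htU) (hpol t htU) ?_ ?_ ρ hρ G' hG' hGc
    · intro u b hb
      obtain ⟨v, hv1, hv2⟩ := exists_sqrt hb.1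
      have hv0 : v ≠ 0 := by
        intro h
        rw [h, norm_zero] at hv1
        exact zero_ne_one hv1
      exact circle_mem_zar (hpol t htU) (hdetP t htU) hdet1 hiso hAd hNk hcz (hNH t hθV) hv0
        (hodgeElt_iff (hpol t htU) (hdetP t htU) hv1 hv2 hb)
    · by_contra hno
      exact hA ⟨ha, θ, hθ, hq, hθV, hno⟩
    · intro π hπ
      by_contra hno
      exact hB ⟨ha, θ, hθ, hq, hθV, π, hπ, hno⟩
  have hfin2 : (SmallMT ω N' U V w P lev 2 (ψ.map (Int.cast : ℤ → ℚ)) D e X ∪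
      SmallGal ω N' (Y K) V D e X).Finite := by
    refine Set.Finite.union ?_ ?_
    · exact (AA.box_card X _ fun a ha => ha.1).1
    · exact (AA.box_card X _ fun a ha => ha.1).1
  have h3 := (Set.ncard_le_ncard hsub hfin2).trans (Set.ncard_union_le _ _)
  exact_mod_cast h3

end Pool.Agent.Helper79.FZ
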