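import Pool.Agent.Helper79.FX.TrForm

/-!
# FZ-1: the normaliser of the Lie algebra of the monodromy group

`𝔤` is a space of rational matrices, `𝔤_K = mspan K 𝔤`, `ψ' = ψ.map (algebraMap ℚ K)`.
* `trace_nondeg_map`: the trace form is nondegenerate on `𝔤_K`: let `b_i` be a basis of `𝔤`, the matrix `(trace (b_i b_k))` is invertible over `ℚ` (`htr`), so over `K`; the `b_i.map` span `𝔤_K`.
* `cent_map`: `CentZero` over `K`: the conditions on `x` are linear equations with rational coefficients; with a basis `c_l` of `K` over `ℚ` write `x = ∑ c_l • (x_l).map`, `x_l` rational (entrywise coordinates; finitely many `l`; see the proof of `HI.lieS_map` in `Pool/Agent/Helper79/HI/LieBase.lean`, `coeffs_zero`): all `x_l` satisfy them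
  (for `y ∈ 𝔤`), so `x_l = 0`.
* `mem_of_normal`: the linear form `z ↦ trace (X * z)` on `𝔤_K` is `z ↦ trace (Y * z)` for some `Y ∈ 𝔤_K` (`trace_nondeg_map`, finite dimension). For `z, z' ∈ 𝔤_K`: `trace ((X z - z X) z') = trace (X (z z' - z' z)) = trace (Y (z z' - z' z)) = trace ((Y z - z Y) z')` (`𝔤_K` is a Lie algebra: `hlie`, bilinear), and
  `X z - z X`, `Y z - z Y` are in `𝔤_K`, so they are equal: `X - Y` commutes with `𝔤_K`, is skew (`hskew`, extended to `𝔤_K`) and kills `N`. So `X = Y` by `cent_map`.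
-/

namespace Pool.Agent.Helper79.FZ

open Matrix Module Pool.Agent.Helper88.MT Pool.Agent.Helper46.GG Pool.Agent.Helper79.HG Pool.Agent.Helper79.HH
  Pool.Agent.Helper79.HI Pool.Agent.Helper79.HJ

variable {r : ℕ} {K : Type} [Field K] [Algebra ℚ K] {ψ : Matrix (Fin r) (Fin r) ℚ}
  {N : Submodule ℚ (Fin r → ℚ)} {𝔤 : Submodule ℚ (Matrix (Fin r) (Fin r) ℚ)}

/-- No nonzero skew operator which kills `N` commutes with `𝔤`. -/
def CentZero (ψ : Matrix (Fin r) (Fin r) ℚ) (N : Submodule ℚ (Fin r → ℚ))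
    (𝔤 : Submodule ℚ (Matrix (Fin r) (Fin r) ℚ)) : Prop :=
  ∀ x : Matrix (Fin r) (Fin r) ℚ, xᵀ * ψ + ψ * x = 0 → (∀ v ∈ N, x *ᵥ v = 0) →
    (∀ y ∈ 𝔤, x * y = y * x) → x = 0

/-- the coordinates of a matrix over `K` -/
private noncomputable def cd {B : Type} (b : Module.Basis B ℚ K) (j : B) (x : Matrix (Fin r) (Fin r) K) :
    Matrix (Fin r) (Fin r) ℚ := Matrix.of fun a c => b.repr (x a c) j

private theorem repr_mul_alg {B : Type} (b : Module.Basis B ℚ K) (j : B) (x : K) (q : ℚ) :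
    b.repr (x * algebraMap ℚ K q) j = b.repr x j * q := by
  rw [mul_comm, ← Algebra.smul_def, map_smul, Finsupp.smul_apply, smul_eq_mul, mul_comm]

private theorem repr_alg_mul {B : Type} (b : Module.Basis B ℚ K) (j : B) (x : K) (q : ℚ) :
    b.repr (algebraMap ℚ K q * x) j = q * b.repr x j := by
  rw [← Algebra.smul_def, map_smul, Finsupp.smul_apply, smul_eq_mul]

private theorem cd_mul_map {B : Type} (b : Module.Basis B ℚ K) (j : B)
    (x : Matrix (Fin r) (Fin r) K) (y : Matrix (Fin r) (Fin r) ℚ) :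
    cd b j (x * y.map (algebraMap ℚ K)) = cd b j x * y := by
  ext a c
  simp only [cd, Matrix.of_apply, Matrix.mul_apply, Matrix.map_apply, map_sum,
    Finsupp.finsetSum_apply, repr_mul_alg]

private theorem cd_map_mul {B : Type} (b : Module.Basis B ℚ K) (j : B)
    (x : Matrix (Fin r) (Fin r) K) (y : Matrix (Fin r) (Fin r) ℚ) :
    cd b j (y.map (algebraMap ℚ K) * x) = y * cd b j x := by
  ext a c
  simp only [cd, Matrix.of_apply, Matrix.mul_apply, Matrix.map_apply, map_sum,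
    Finsupp.finsetSum_apply, repr_alg_mul]

private theorem cd_add {B : Type} (b : Module.Basis B ℚ K) (j : B)
    (x y : Matrix (Fin r) (Fin r) K) : cd b j (x + y) = cd b j x + cd b j y := by
  ext a c
  simp only [cd, Matrix.of_apply, Matrix.add_apply, map_add, Finsupp.add_apply]

private theorem cd_zero {B : Type} (b : Module.Basis B ℚ K) (j : B) :
    cd b j (0 : Matrix (Fin r) (Fin r) K) = 0 := by
  ext a c
  simp only [cd, Matrix.of_apply, Matrix.zero_apply, map_zero, Finsupp.zero_apply]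

private theorem cd_transpose {B : Type} (b : Module.Basis B ℚ K) (j : B)
    (x : Matrix (Fin r) (Fin r) K) : cd b j xᵀ = (cd b j x)ᵀ := by
  ext a c
  rfl

private theorem eq_zero_of_cd {B : Type} (b : Module.Basis B ℚ K)
    {x : Matrix (Fin r) (Fin r) K} (h : ∀ j, cd b j x = 0) : x = 0 := by
  ext a c
  rw [Matrix.zero_apply]
  have h1 : b.repr (x a c) = 0 := by
    ext j
    have h2 := congrFun (congrFun (h j) a) c
    simpa only [cd, Matrix.of_apply, Matrix.zero_apply, Finsupp.zero_apply] using h2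
  rwa [map_eq_zero_iff _ b.repr.injective] at h1

private theorem cd_mulVec {B : Type} (b : Module.Basis B ℚ K) (j : B)
    (x : Matrix (Fin r) (Fin r) K) (v : Fin r → ℚ) (i : Fin r) :
    b.repr ((x *ᵥ (fun i => algebraMap ℚ K (v i))) i) j = (cd b j x *ᵥ v) i := by
  simp only [cd, Matrix.of_apply, Matrix.mulVec, dotProduct, map_sum, Finsupp.finsetSum_apply,
    repr_mul_alg]

private theorem cd_trace {B : Type} (b : Module.Basis B ℚ K) (j : B)
    (x : Matrix (Fin r) (Fin r) K) : b.repr x.trace j = (cd b j x).trace := by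
  simp only [cd, Matrix.trace, Matrix.diag_apply, Matrix.of_apply, map_sum,
    Finsupp.finsetSum_apply]

private theorem cd_mem {B : Type} (b : Module.Basis B ℚ K)
    {x : Matrix (Fin r) (Fin r) K} (hx : x ∈ mspan K 𝔤) (j : B) : cd b j x ∈ 𝔤 := by
  rw [mspan_map, mem_smap_iff b] at hx
  obtain ⟨y, hy, hyx⟩ := hx j
  have h1 : y = cd b j x := by
    apply (unc ℚ).injective
    rw [show (unc ℚ) y = _ from hyx]
    rfl
  rwa [← h1]

theorem trace_nondeg_map (htr : ∀ x ∈ 𝔤, (∀ y ∈ 𝔤, (x * y).trace = 0) → x = 0)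
    {x : Matrix (Fin r) (Fin r) K} (hx : x ∈ mspan K 𝔤) (h0 : ∀ y ∈ mspan K 𝔤, (x * y).trace = 0) :
    x = 0 := by
  let b := Module.Basis.ofVectorSpace ℚ K
  refine eq_zero_of_cd b fun j => htr _ (cd_mem b hx j) fun y hy => ?_
  rw [← cd_mul_map, ← cd_trace, h0 _ (map_mem_mspan hy), map_zero, Finsupp.zero_apply]

theorem cent_map (hcent : CentZero ψ N 𝔤) {x : Matrix (Fin r) (Fin r) K}
    (h1 : xᵀ * ψ.map (algebraMap ℚ K) + ψ.map (algebraMap ℚ K) * x = 0)
    (h2 : ∀ v ∈ N, x *ᵥ (fun i => algebraMap ℚ K (v i)) = 0) (h3 : ∀ y ∈ mspan K 𝔤, x * y = y * x) :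
    x = 0 := by
  let b := Module.Basis.ofVectorSpace ℚ K
  refine eq_zero_of_cd b fun j => hcent _ ?_ ?_ ?_
  · rw [← cd_transpose, ← cd_mul_map, ← cd_map_mul, ← cd_add, h1, cd_zero]
  · intro v hv
    funext i
    rw [← cd_mulVec, h2 v hv, Pi.zero_apply, map_zero, Finsupp.zero_apply, Pi.zero_apply]
  · intro y hy
    rw [← cd_mul_map, ← cd_map_mul, h3 _ (map_mem_mspan hy)]

private theorem mspan_ind {p : Matrix (Fin r) (Fin r) K → Prop}
    (h0 : ∀ x ∈ 𝔤, p (x.map (algebraMap ℚ K))) (hz : p 0) (ha : ∀ x y, p x → p y → p (x + y))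
    (hs : ∀ (c : K) x, p x → p (c • x)) {x : Matrix (Fin r) (Fin r) K} (hx : x ∈ mspan K 𝔤) : p x := by
  unfold mspan at hx
  refine Submodule.span_induction (p := fun x _ => p x) ?_ hz (fun x y _ _ => ha x y)
    (fun c x _ => hs c x) hx
  rintro _ ⟨y, hy, rfl⟩
  exact h0 y hy

private theorem mspan_lie (hlie : ∀ x ∈ 𝔤, ∀ y ∈ 𝔤, x * y - y * x ∈ 𝔤)
    {x y : Matrix (Fin r) (Fin r) K} (hx : x ∈ mspan K 𝔤) (hy : y ∈ mspan K 𝔤) :
    x * y - y * x ∈ mspan K 𝔤 := by
  revert y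
  refine mspan_ind (p := fun x => ∀ {y : Matrix (Fin r) (Fin r) K}, y ∈ mspan K 𝔤 →
    x * y - y * x ∈ mspan K 𝔤) ?_ ?_ ?_ ?_ hx
  · intro x hx y hy
    refine mspan_ind (p := fun y => x.map (algebraMap ℚ K) * y - y * x.map (algebraMap ℚ K) ∈
      mspan K 𝔤) ?_ ?_ ?_ ?_ hy
    · intro y hy
      have h1 := map_mem_mspan (K := K) (hlie x hx y hy)
      rwa [Matrix.map_sub _ (fun a b => map_sub _ a b), Matrix.map_mul, Matrix.map_mul] at h1
    · simp
    · intro y z hy hz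
      have h1 := (mspan K 𝔤).add_mem hy hz
      convert h1 using 1
      noncomm_ring
    · intro c y hy
      have h1 := (mspan K 𝔤).smul_mem c hy
      rwa [smul_sub, ← Matrix.mul_smul, ← Matrix.smul_mul] at h1
  · intro y _
    simp
  · intro x z hx hz y hy
    have h1 := (mspan K 𝔤).add_mem (hx hy) (hz hy)
    convert h1 using 1
    noncomm_ring
  · intro c x hx y hy
    have h1 := (mspan K 𝔤).smul_mem c (hx hy)
    rwa [smul_sub, ← Matrix.smul_mul, ← Matrix.mul_smul] at h1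

private theorem mspan_skew (hskew : ∀ x ∈ 𝔤, xᵀ * ψ + ψ * x = 0)
    {x : Matrix (Fin r) (Fin r) K} (hx : x ∈ mspan K 𝔤) :
    xᵀ * ψ.map (algebraMap ℚ K) + ψ.map (algebraMap ℚ K) * x = 0 := by
  refine mspan_ind (p := fun x => xᵀ * ψ.map (algebraMap ℚ K) + ψ.map (algebraMap ℚ K) * x = 0)
    ?_ ?_ ?_ ?_ hx
  · intro x hx
    rw [← Matrix.transpose_map, ← Matrix.map_mul, ← Matrix.map_mul,
      ← Matrix.map_add _ (fun a b => map_add _ a b), hskew x hx]
    exact Matrix.map_zero _ (map_zero _)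
  · simp
  · intro x y hx hy
    rw [Matrix.transpose_add, Matrix.add_mul, Matrix.mul_add, add_add_add_comm, hx, hy, add_zero]
  · intro c x hx
    rw [Matrix.transpose_smul, Matrix.smul_mul, Matrix.mul_smul, ← smul_add, hx, smul_zero]

private theorem mspan_kill (hN : ∀ x ∈ 𝔤, ∀ v ∈ N, x *ᵥ v = 0)
    {x : Matrix (Fin r) (Fin r) K} (hx : x ∈ mspan K 𝔤) {v : Fin r → ℚ} (hv : v ∈ N) :
    x *ᵥ (fun i => algebraMap ℚ K (v i)) = 0 := by
  refine mspan_ind (p := fun x => x *ᵥ (fun i => algebraMap ℚ K (v i)) = 0) ?_ ?_ ?_ ?_ hx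
  · intro x hx
    have h1 := hN x hx v hv
    funext i
    have h2 := congrFun h1 i
    simp only [Matrix.mulVec, dotProduct, Matrix.map_apply, Pi.zero_apply] at h2 ⊢
    rw [← map_zero (algebraMap ℚ K), ← h2, map_sum]
    simp only [map_mul]
  · simp
  · intro x y hx hy
    rw [Matrix.add_mulVec, hx, hy, add_zero]
  · intro c x hx
    rw [Matrix.smul_mulVec, hx, smul_zero]

private theorem exists_dual (htr : ∀ x ∈ 𝔤, (∀ y ∈ 𝔤, (x * y).trace = 0) → x = 0)
    (X : Matrix (Fin r) (Fin r) K) :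
    ∃ Y ∈ mspan K 𝔤, ∀ z ∈ mspan K 𝔤, (Y * z).trace = (X * z).trace := by
  obtain ⟨φ, hφ⟩ : ∃ φ : Matrix (Fin r) (Fin r) K →ₗ[K] Module.Dual K (mspan K 𝔤),
      ∀ A z, φ A z = (A * (z : Matrix (Fin r) (Fin r) K)).trace :=
    ⟨LinearMap.mk₂ K (fun A (z : mspan K 𝔤) => (A * (z : Matrix (Fin r) (Fin r) K)).trace)
      (fun A B z => by rw [Matrix.add_mul, Matrix.trace_add])
      (fun c A z => by rw [Matrix.smul_mul, Matrix.trace_smul])
      (fun A z w => by rw [Submodule.coe_add, Matrix.mul_add, Matrix.trace_add])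
      (fun c A z => by rw [Submodule.coe_smul, Matrix.mul_smul, Matrix.trace_smul]),
      fun A z => rfl⟩
  have hinj : Function.Injective (φ.comp (mspan K 𝔤).subtype) := by
    rw [← LinearMap.ker_eq_bot, LinearMap.ker_eq_bot']
    intro m hm
    apply Subtype.ext
    refine trace_nondeg_map htr m.2 fun y hy => ?_
    have h1 := congrFun (congrArg DFunLike.coe hm) ⟨y, hy⟩
    rw [LinearMap.comp_apply, hφ] at h1
    exact h1
  have hsurj : Function.Surjective (φ.comp (mspan K 𝔤).subtype) :=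
    (LinearMap.injective_iff_surjective_of_finrank_eq_finrank
      (Subspace.dual_finrank_eq).symm).mp hinj
  obtain ⟨Y, hY⟩ := hsurj (φ X)
  refine ⟨Y, Y.2, fun z hz => ?_⟩
  have h1 := congrFun (congrArg DFunLike.coe hY) ⟨z, hz⟩
  rw [LinearMap.comp_apply, hφ, hφ] at h1
  exact h1

theorem mem_of_normal (htr : ∀ x ∈ 𝔤, (∀ y ∈ 𝔤, (x * y).trace = 0) → x = 0)
    (hlie : ∀ x ∈ 𝔤, ∀ y ∈ 𝔤, x * y - y * x ∈ 𝔤) (hskew : ∀ x ∈ 𝔤, xᵀ * ψ + ψ * x = 0)
    (hN : ∀ x ∈ 𝔤, ∀ v ∈ N, x *ᵥ v = 0) (hcent : CentZero ψ N 𝔤) {X : Matrix (Fin r) (Fin r) K}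
    (h1 : Xᵀ * ψ.map (algebraMap ℚ K) + ψ.map (algebraMap ℚ K) * X = 0)
    (h2 : ∀ v ∈ N, X *ᵥ (fun i => algebraMap ℚ K (v i)) = 0)
    (h3 : ∀ y ∈ mspan K 𝔤, X * y - y * X ∈ mspan K 𝔤) : X ∈ mspan K 𝔤 := by
  obtain ⟨Y, hY, hYX⟩ := exists_dual htr X
  have h4 : X - Y = 0 := by
    refine cent_map hcent ?_ ?_ ?_
    · rw [Matrix.transpose_sub, Matrix.sub_mul, Matrix.mul_sub, sub_add_sub_comm, h1,
        mspan_skew hskew hY, sub_zero]
    · intro v hv
      rw [Matrix.sub_mulVec, h2 v hv, mspan_kill hN hY hv, sub_zero]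
    · intro z hz
      have h5 : X * z - z * X - (Y * z - z * Y) = 0 := by
        refine trace_nondeg_map htr ((mspan K 𝔤).sub_mem (h3 z hz) (mspan_lie hlie hY hz))
          fun w hw => ?_
        have h6 : ∀ A : Matrix (Fin r) (Fin r) K,
            ((A * z - z * A) * w).trace = (A * (z * w - w * z)).trace := by
          intro A
          rw [Matrix.sub_mul, Matrix.mul_sub, Matrix.trace_sub, Matrix.trace_sub,
            Matrix.mul_assoc A z w, Matrix.mul_assoc z A w, Matrix.trace_mul_comm z (A * w),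
            Matrix.mul_assoc A w z]
        rw [Matrix.sub_mul, Matrix.trace_sub, h6, h6, hYX _ (mspan_lie hlie hz hw), sub_self]
      have h7 : (X - Y) * z - z * (X - Y) = 0 := by
        rw [← h5, Matrix.sub_mul, Matrix.mul_sub]
        abel
      exact sub_eq_zero.mp h7
  rw [sub_eq_zero.mp h4]
  exact hY

end Pool.Agent.Helper79.FZ
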